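import Mathlib
import Pool.Agent.H.MP_2fd64a_an.A

namespace Pool.Agent.Results.MP_2fd64a_an.No

open Polynomial

/-- truncation of one coefficient: `(a / |a|) * min |a| 1`, which is `0` at `a = 0` -/
noncomputable def tr (a : ℂ) : ℂ := a / (‖a‖ : ℂ) * ((min ‖a‖ 1 : ℝ) : ℂ)

/-- the truncation operator `S_n` -/
noncomputable def S (n : ℕ) (P : ℂ[X]) : ℂ[X] :=
  ∑ j ∈ Finset.range (n + 1), monomial j (tr (P.coeff j))

/-- the `L_p` (quasi-)norm on the unit circle with arc-length measure -/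
noncomputable def Lp (p : ℝ) (P : ℂ[X]) : ℝ :=
  (∫ x in (0 : ℝ)..(2 * Real.pi), ‖P.eval (Complex.exp (x * Complex.I))‖ ^ p) ^ (1 / p)

theorem result (p : ℝ) (hp : 0 < p) (hp2 : p < 2) (c : ℝ) :
    ∃ (n : ℕ) (P : ℂ[X]), P ≠ 0 ∧ P.natDegree ≤ n ∧ c * Lp p P < Lp p (S n P) :=
  Pool.Agent.H.MP_2fd64a_an.poly hp hp2 c

end Pool.Agent.Results.MP_2fd64a_an.No
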